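import Mathlib
import Pool.Agent.Q286.NE.Defs

/-! The boundary source (project NE of helper286). -/

set_option autoImplicit false

open Finset MeasureTheory Filter Topology

namespace Pool.Agent.Q175.NE

open Pool.Agent.Q286.NE Pool.Agent.Q286.AP Pool.Agent.H469R10.HO

theorem tri_cont : Continuous tri := by
  unfold tri
  fun_prop

theorem tri_nonneg (t : ℝ) : 0 ≤ tri t := le_max_right _ _

theorem tri_le (t : ℝ) : tri t ≤ 1 := max_le (by linarith [abs_nonneg t]) zero_le_one

theorem tri_zero {t : ℝ} (h : 1 ≤ |t|) : tri t = 0 := max_eq_right (by linarith)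

theorem tri_neg (t : ℝ) : tri (-t) = tri t := by
  unfold tri
  rw [abs_neg]

theorem sum5 : Summable (fun k : ℕ => 1 / ((k : ℝ) + 2) ^ 5) := by
  have h : Summable (fun n : ℕ => 1 / (n : ℝ) ^ 5) := Real.summable_one_div_nat_pow.2 (by norm_num)
  have := (summable_nat_add_iff 2).2 h
  refine this.congr fun k => ?_
  push_cast
  rfl

theorem om_cont : Continuous om := by
  refine continuous_tsum (u := fun k : ℕ => 1 / ((k : ℝ) + 2) ^ 5) (fun k => ?_) sum5 ?_
  · have := tri_cont
    fun_prop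
  · intro k t
    rw [Real.norm_eq_abs, abs_of_nonneg (mul_nonneg (by positivity) (tri_nonneg _))]
    exact mul_le_of_le_one_right (by positivity) (tri_le _)

theorem om_zero {t : ℝ} (h : 1 / 4 ≤ |t|) : om t = 0 := by
  unfold om
  have : ∀ k : ℕ, 1 / ((k : ℝ) + 2) ^ 5 * tri (2 ^ (k + 2) * t) = 0 := by
    intro k
    rw [tri_zero, mul_zero]
    rw [abs_mul, abs_of_pos (by positivity : (0 : ℝ) < 2 ^ (k + 2)), pow_add]
    have h1 : (1 : ℝ) ≤ 2 ^ k := one_le_pow₀ (by norm_num)
    nlinarith [abs_nonneg t]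
  simp_rw [this]
  exact tsum_zero

theorem om_neg (t : ℝ) : om (-t) = om t := by
  unfold om
  congr 1
  funext k
  rw [mul_neg, tri_neg]

/-- continuity of `x ^ m * ω (log x)` extended by zero -/
theorem ext_cont {w : ℝ → ℝ} (hw : Continuous w) (h0 : ∀ t, 1 / 4 ≤ |t| → w t = 0) (m : ℕ) (c : ℝ) :
    Continuous (fun x : ℝ => if 0 < x then c * x ^ m * w (Real.log x) else 0) := by
  rw [continuous_iff_continuousAt]
  intro x
  by_cases hx : 0 < x
  · have h1 : ContinuousAt (fun x : ℝ => c * x ^ m * w (Real.log x)) x := by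
      have h2 : ContinuousAt Real.log x := Real.continuousAt_log hx.ne'
      have h3 : ContinuousAt (fun x => w (Real.log x)) x := hw.continuousAt.comp h2
      have h4 : ContinuousAt (fun x : ℝ => c * x ^ m) x := by fun_prop
      exact h4.mul h3
    refine h1.congr ?_
    filter_upwards [lt_mem_nhds hx] with y hy
    rw [if_pos hy]
  · have h1 : ContinuousAt (fun _ : ℝ => (0 : ℝ)) x := continuousAt_const
    refine h1.congr ?_
    have hx2 : x < Real.exp (-(1 / 4)) := lt_of_le_of_lt (not_lt.1 hx) (Real.exp_pos _)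
    filter_upwards [gt_mem_nhds hx2] with y hy
    by_cases hy0 : 0 < y
    · rw [if_pos hy0]
      have h2 : Real.log y < -(1 / 4) := (Real.log_lt_iff_lt_exp hy0).2 hy
      rw [h0 (Real.log y) (by rw [abs_of_neg (by linarith)]; linarith), mul_zero]
    · rw [if_neg hy0]

theorem log43 : (1 / 4 : ℝ) ≤ Real.log (4 / 3) := by
  rw [Real.le_log_iff_exp_le (by norm_num)]
  have h1 : Real.exp (1 / 4) ^ 4 = Real.exp 1 := by
    rw [← Real.exp_nat_mul]
    norm_num
  have h2 := Real.exp_one_lt_d9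
  by_contra hcon
  push Not at hcon
  have h3 : (4 / 3 : ℝ) ^ 4 < Real.exp (1 / 4) ^ 4 := by gcongr
  rw [h1] at h3
  norm_num at h3
  linarith

theorem rsc : S_RSC := by
  intro c m
  refine ⟨?_, ?_, ?_⟩
  · have := ext_cont om_cont (fun t ht => om_zero ht) m c
    exact this
  · intro x hx h
    unfold rr
    rw [if_pos hx, om_zero (log43.trans h), mul_zero]
  · intro x hx
    unfold rr
    rw [if_pos hx, if_pos (inv_pos.2 hx), Real.log_inv, om_neg]
    have hx0 : x ≠ 0 := hx.ne'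
    have e : x ^ (2 * m) = x ^ m * x ^ m := by ring
    rw [e, inv_pow]
    field_simp

/-- two integrations by parts -/
theorem ibp2 {a b lam M1 M2 : ℝ} (hab : a ≤ b) (hl : 0 < lam) {f f1 f2 : ℝ → ℝ}
    (h1 : ∀ x ∈ Set.Icc a b, HasDerivAt f (f1 x) x) (h2 : ∀ x ∈ Set.Icc a b, HasDerivAt f1 (f2 x) x)
    (hf2 : ContinuousOn f2 (Set.Icc a b)) (b1 : ∀ x ∈ Set.Icc a b, |f1 x| ≤ M1)
    (b2 : ∀ x ∈ Set.Icc a b, |f2 x| ≤ M2) :
    |(∫ x in a..b, f x * Real.cos (lam * x)) -
      (f b * Real.sin (lam * b) - f a * Real.sin (lam * a)) / lam| ≤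
      (2 * M1 + M2 * (b - a)) / lam ^ 2 := by
  have hf : ContinuousOn f (Set.Icc a b) := fun x hx => (h1 x hx).continuousAt.continuousWithinAt
  have hcos : Continuous (fun x : ℝ => Real.cos (lam * x)) := by fun_prop
  have i1 : IntervalIntegrable (fun x => f x * Real.cos (lam * x)) volume a b := by
    apply ContinuousOn.intervalIntegrable
    rw [Set.uIcc_of_le hab]
    exact hf.mul hcos.continuousOn
  have i2 : IntervalIntegrable (fun x => f2 x * Real.cos (lam * x)) volume a b := by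
    apply ContinuousOn.intervalIntegrable
    rw [Set.uIcc_of_le hab]
    exact hf2.mul hcos.continuousOn
  have hd : ∀ x ∈ Set.uIcc a b, HasDerivAt
      (fun x => f x * Real.sin (lam * x) / lam + f1 x * Real.cos (lam * x) / lam ^ 2)
      (f x * Real.cos (lam * x) + f2 x * Real.cos (lam * x) / lam ^ 2) x := by
    intro x hx
    rw [Set.uIcc_of_le hab] at hx
    have e0 : HasDerivAt (fun x : ℝ => lam * x) lam x := by
      simpa using (hasDerivAt_id x).const_mul lam
    have e1 := ((h1 x hx).mul e0.sin).div_const lam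
    have e2 := ((h2 x hx).mul e0.cos).div_const (lam ^ 2)
    have := e1.add e2
    refine this.congr_deriv ?_
    field_simp
    ring
  have key := intervalIntegral.integral_eq_sub_of_hasDerivAt hd
    (i1.add (i2.div_const (lam ^ 2)))
  rw [intervalIntegral.integral_add i1 (i2.div_const _), intervalIntegral.integral_div] at key
  have hM : |∫ x in a..b, f2 x * Real.cos (lam * x)| ≤ M2 * (b - a) := by
    have := intervalIntegral.norm_integral_le_of_norm_le_const (a := a) (b := b)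
      (f := fun x => f2 x * Real.cos (lam * x)) (C := M2) (by
        intro x hx
        rw [Set.uIoc_of_le hab] at hx
        rw [Real.norm_eq_abs, abs_mul]
        have h3 := b2 x ⟨hx.1.le, hx.2⟩
        have h4 := Real.abs_cos_le_one (lam * x)
        calc |f2 x| * |Real.cos (lam * x)| ≤ |f2 x| * 1 := by gcongr
          _ ≤ M2 := by linarith)
    rwa [Real.norm_eq_abs, abs_of_nonneg (by linarith : 0 ≤ b - a)] at this
  have hb1 := b1 b ⟨hab, le_rfl⟩
  have ha1 := b1 a ⟨le_rfl, hab⟩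
  have c1 := Real.abs_cos_le_one (lam * b)
  have c2 := Real.abs_cos_le_one (lam * a)
  have d1 : |f1 b * Real.cos (lam * b)| ≤ M1 := by
    rw [abs_mul]
    calc |f1 b| * |Real.cos (lam * b)| ≤ |f1 b| * 1 := by gcongr
      _ ≤ M1 := by linarith
  have d2 : |f1 a * Real.cos (lam * a)| ≤ M1 := by
    rw [abs_mul]
    calc |f1 a| * |Real.cos (lam * a)| ≤ |f1 a| * 1 := by gcongr
      _ ≤ M1 := by linarith
  have e : (∫ x in a..b, f x * Real.cos (lam * x)) -
      (f b * Real.sin (lam * b) - f a * Real.sin (lam * a)) / lam =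
      (f1 b * Real.cos (lam * b) - f1 a * Real.cos (lam * a) -
        ∫ x in a..b, f2 x * Real.cos (lam * x)) / lam ^ 2 := by
    have hl' : lam ≠ 0 := hl.ne'
    field_simp at key ⊢
    linear_combination key
  rw [e, abs_div, abs_of_pos (by positivity : 0 < lam ^ 2)]
  gcongr
  rw [abs_le] at d1 d2 hM ⊢
  constructor <;> linarith [d1.1, d1.2, d2.1, d2.2, hM.1, hM.2]

/-- the branch `x ^ m (1 - s log x / h)` -/
noncomputable def br (m : ℕ) (s h : ℝ) (x : ℝ) : ℝ := x ^ m * (1 - s * Real.log x / h)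

noncomputable def br1 (m : ℕ) (s h : ℝ) (x : ℝ) : ℝ :=
  x ^ m * x⁻¹ * (m * (1 - s * Real.log x / h) - s / h)

noncomputable def br2 (m : ℕ) (s h : ℝ) (x : ℝ) : ℝ :=
  x ^ m * (x⁻¹ * x⁻¹) * ((m - 1) * (m * (1 - s * Real.log x / h) - s / h) - m * s / h)

theorem hd_pow (m : ℕ) {x : ℝ} (hx : x ≠ 0) : HasDerivAt (fun x : ℝ => x ^ m) (m * x ^ m * x⁻¹) x := by
  refine (hasDerivAt_pow m x).congr_deriv ?_
  cases m with
  | zero => simp
  | succ n =>
    simp only [Nat.add_sub_cancel]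
    rw [pow_succ]
    field_simp

theorem hd_lin (s h : ℝ) {x : ℝ} (hx : x ≠ 0) :
    HasDerivAt (fun x : ℝ => 1 - s * Real.log x / h) (-(s * x⁻¹ / h)) x := by
  have := (((Real.hasDerivAt_log hx).const_mul s).div_const h).const_sub 1
  exact this

theorem hd_br (m : ℕ) (s h : ℝ) {x : ℝ} (hx : x ≠ 0) :
    HasDerivAt (br m s h) (br1 m s h x) x := by
  have := (hd_pow m hx).mul (hd_lin s h hx)
  refine this.congr_deriv ?_
  unfold br1
  ring

theorem hd_br1 (m : ℕ) (s h : ℝ) {x : ℝ} (hx : x ≠ 0) :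
    HasDerivAt (br1 m s h) (br2 m s h x) x := by
  have h1 := ((hd_lin s h hx).const_mul (m : ℝ)).sub_const (s / h)
  have h2 := (hd_pow m hx).mul (hasDerivAt_inv hx)
  have := h2.mul h1
  refine this.congr_deriv ?_
  unfold br2
  simp only [Pi.mul_apply]
  have e : (x ^ 2)⁻¹ = x⁻¹ * x⁻¹ := by rw [sq, mul_inv]
  rw [e]
  ring

theorem br2_cont (m : ℕ) (s h : ℝ) {a b : ℝ} (ha : 0 < a) : ContinuousOn (br2 m s h) (Set.Icc a b) := by
  intro x hx
  have hx0 : x ≠ 0 := (lt_of_lt_of_le ha hx.1).ne'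
  apply ContinuousAt.continuousWithinAt
  unfold br2
  have h1 : ContinuousAt Real.log x := Real.continuousAt_log hx0
  have h2 : ContinuousAt (fun x : ℝ => x⁻¹) x := continuousAt_inv₀ hx0
  fun_prop

theorem br_bd {m : ℕ} {s h x : ℝ} (hh : 0 < h) (hs : |s| = 1) (hx1 : Real.exp (-h) ≤ x)
    (hx2 : x ≤ Real.exp h) (h0 : 0 ≤ s * Real.log x) (h1 : s * Real.log x ≤ h) :
    |br m s h x| ≤ Real.exp (m * h) ∧
    |br1 m s h x| ≤ Real.exp (m * h) * Real.exp h * (m + 1 / h) ∧
    |br2 m s h x| ≤ Real.exp (m * h) * (Real.exp h * Real.exp h) *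
      ((m + 1) * (m + 1 / h) + m / h) := by
  have hx : 0 < x := (Real.exp_pos _).trans_le hx1
  have e1 : x ^ m ≤ Real.exp (m * h) := by
    rw [Real.exp_nat_mul]
    gcongr
  have e2 : x⁻¹ ≤ Real.exp h := by
    rw [inv_le_comm₀ hx (Real.exp_pos _), ← Real.exp_neg]
    exact hx1
  have q0 : 0 ≤ s * Real.log x / h := div_nonneg h0 hh.le
  have q1 : s * Real.log x / h ≤ 1 := (div_le_one hh).2 h1
  have e3 : |1 - s * Real.log x / h| ≤ 1 := by
    rw [abs_le]; constructor <;> linarith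
  have e4 : |s / h| = 1 / h := by rw [abs_div, hs, abs_of_pos hh]
  have e5 : |(m : ℝ) * (1 - s * Real.log x / h) - s / h| ≤ m + 1 / h := by
    refine (abs_sub _ _).trans ?_
    rw [abs_mul, e4, Nat.abs_cast]
    have : (m : ℝ) * |1 - s * Real.log x / h| ≤ m * 1 := by gcongr
    linarith
  have hm1 : |(m : ℝ) - 1| ≤ m + 1 := by
    have : (0 : ℝ) ≤ m := Nat.cast_nonneg m
    rw [abs_le]; constructor <;> linarith
  have e6 : |((m : ℝ) - 1) * (m * (1 - s * Real.log x / h) - s / h) - m * s / h| ≤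
      (m + 1) * (m + 1 / h) + m / h := by
    refine (abs_sub _ _).trans ?_
    have h2 : |(m : ℝ) * s / h| = m / h := by
      rw [abs_div, abs_mul, hs, abs_of_pos hh, Nat.abs_cast, mul_one]
    rw [abs_mul, h2]
    gcongr
  have hxm : |x ^ m| = x ^ m := abs_of_pos (by positivity)
  refine ⟨?_, ?_, ?_⟩
  · unfold br
    rw [abs_mul, hxm]
    calc x ^ m * |1 - s * Real.log x / h| ≤ x ^ m * 1 := by gcongr
      _ ≤ Real.exp (m * h) := by linarith
  · unfold br1
    rw [abs_mul, abs_mul, hxm, abs_of_pos (inv_pos.2 hx)]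
    gcongr
  · unfold br2
    rw [abs_mul, abs_mul, hxm, abs_of_pos (by positivity : 0 < x⁻¹ * x⁻¹)]
    gcongr

/-- the piece of the source, in the variable `x` -/
noncomputable def RR (m : ℕ) (h : ℝ) (x : ℝ) : ℝ :=
  if 0 < x then 1 * x ^ m * tri (Real.log x / h) else 0

theorem RR_cont (m : ℕ) {h : ℝ} (hh : 0 < h) (h4 : h ≤ 1 / 4) : Continuous (RR m h) := by
  have := tri_cont
  refine ext_cont (w := fun t => tri (t / h)) (by fun_prop) (fun t ht => tri_zero ?_) m 1
  rw [abs_div, abs_of_pos hh, le_div_iff₀ hh]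
  linarith

theorem RR_out (m : ℕ) {h x : ℝ} (hh : 0 < h) (hx : x ≤ Real.exp (-h) ∨ Real.exp h ≤ x) :
    RR m h x = 0 := by
  unfold RR
  split_ifs with h0
  · rw [tri_zero, mul_zero]
    rw [abs_div, abs_of_pos hh, le_div_iff₀ hh, one_mul]
    rcases hx with hx | hx
    · have := (Real.log_le_iff_le_exp h0).2 hx
      rw [abs_of_neg (by linarith)]
      linarith
    · have := (Real.le_log_iff_exp_le h0).2 hx
      exact this.trans (le_abs_self _)
  · rfl

theorem RR_left (m : ℕ) {h x : ℝ} (hh : 0 < h) (h1 : Real.exp (-h) ≤ x) (h2 : x ≤ 1) :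
    RR m h x = br m (-1) h x := by
  have hx : 0 < x := (Real.exp_pos _).trans_le h1
  unfold RR br
  rw [if_pos hx, one_mul]
  congr 1
  have h3 : Real.log x ≤ 0 := Real.log_nonpos hx.le h2
  have h4 := (Real.le_log_iff_exp_le hx).2 h1
  unfold tri
  rw [abs_of_nonpos (div_nonpos_of_nonpos_of_nonneg h3 hh.le), max_eq_left]
  · ring
  · have : -(Real.log x / h) ≤ 1 := by
      rw [← neg_div, div_le_one hh]
      linarith
    linarith

theorem RR_right (m : ℕ) {h x : ℝ} (hh : 0 < h) (h1 : 1 ≤ x) (h2 : x ≤ Real.exp h) :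
    RR m h x = br m 1 h x := by
  have hx : 0 < x := zero_lt_one.trans_le h1
  unfold RR br
  rw [if_pos hx, one_mul]
  congr 1
  have h3 : 0 ≤ Real.log x := Real.log_nonneg h1
  have h4 := (Real.log_le_iff_le_exp hx).2 h2
  unfold tri
  rw [abs_of_nonneg (div_nonneg h3 hh.le), max_eq_left]
  · ring
  · have : Real.log x / h ≤ 1 := by
      rw [div_le_one hh]
      linarith
    linarith

theorem exp_h {h : ℝ} (hh : 0 < h) (h4 : h ≤ 1 / 4) :
    Real.exp h ≤ 4 / 3 ∧ Real.exp h - Real.exp (-h) ≤ 3 * h := by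
  have h1 : Real.exp h ≤ 4 / 3 := by
    have := log43
    calc Real.exp h ≤ Real.exp (Real.log (4 / 3)) := Real.exp_le_exp.2 (h4.trans this)
      _ = 4 / 3 := Real.exp_log (by norm_num)
  refine ⟨h1, ?_⟩
  have h2 := Real.add_one_le_exp (-h)
  have h3 : Real.exp h * Real.exp (-h) = 1 := by rw [← Real.exp_add]; simp
  -- `exp h - 1 = exp h (1 - exp (-h)) ≤ exp h * h`
  have h5 : Real.exp h - 1 ≤ Real.exp h * h := by nlinarith [Real.exp_pos h]
  nlinarith

theorem J_split (m : ℕ) {h : ℝ} (hh : 0 < h) (h4 : h ≤ 1 / 4) (lam : ℝ) :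
    ∫ x in (0:ℝ)..2, RR m h x * Real.cos (lam * x) =
      (∫ x in Real.exp (-h)..1, br m (-1) h x * Real.cos (lam * x)) +
      ∫ x in (1:ℝ)..Real.exp h, br m 1 h x * Real.cos (lam * x) := by
  have hc : Continuous (fun x => RR m h x * Real.cos (lam * x)) := by
    have := RR_cont m hh h4
    fun_prop
  have hi : ∀ a b : ℝ, IntervalIntegrable (fun x => RR m h x * Real.cos (lam * x)) volume a b :=
    fun a b => hc.intervalIntegrable a b
  have h5 := (exp_h hh h4).1
  have h6 : Real.exp (-h) ≤ 1 := Real.exp_le_one_iff.2 (by linarith)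
  have h7 : 1 ≤ Real.exp h := Real.one_le_exp hh.le
  rw [← intervalIntegral.integral_add_adjacent_intervals (hi 0 (Real.exp (-h))) (hi _ 2),
    ← intervalIntegral.integral_add_adjacent_intervals (hi (Real.exp (-h)) 1) (hi _ 2),
    ← intervalIntegral.integral_add_adjacent_intervals (hi 1 (Real.exp h)) (hi _ 2)]
  have z1 : ∫ x in (0:ℝ)..Real.exp (-h), RR m h x * Real.cos (lam * x) = 0 := by
    have : Set.EqOn (fun x => RR m h x * Real.cos (lam * x)) (fun _ => (0 : ℝ))
        (Set.uIcc 0 (Real.exp (-h))) := by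
      intro x hx
      rw [Set.uIcc_of_le (Real.exp_pos _).le] at hx
      simp only
      rw [RR_out m hh (Or.inl hx.2), zero_mul]
    rw [intervalIntegral.integral_congr this]
    simp
  have z2 : ∫ x in (Real.exp h)..2, RR m h x * Real.cos (lam * x) = 0 := by
    have : Set.EqOn (fun x => RR m h x * Real.cos (lam * x)) (fun _ => (0 : ℝ))
        (Set.uIcc (Real.exp h) 2) := by
      intro x hx
      rw [Set.uIcc_of_le (by linarith)] at hx
      simp only
      rw [RR_out m hh (Or.inr hx.1), zero_mul]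
    rw [intervalIntegral.integral_congr this]
    simp
  rw [z1, z2, zero_add, add_zero]
  congr 1
  · refine intervalIntegral.integral_congr fun x hx => ?_
    rw [Set.uIcc_of_le h6] at hx
    rw [RR_left m hh hx.1 hx.2]
  · refine intervalIntegral.integral_congr fun x hx => ?_
    rw [Set.uIcc_of_le h7] at hx
    rw [RR_right m hh hx.1 hx.2]

/-- the sign conditions on the two branches -/
theorem sg_left {h x : ℝ} (h1 : Real.exp (-h) ≤ x) (h2 : x ≤ 1) :
    0 ≤ (-1) * Real.log x ∧ (-1) * Real.log x ≤ h := by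
  have hx : 0 < x := (Real.exp_pos _).trans_le h1
  have h3 : Real.log x ≤ 0 := Real.log_nonpos hx.le h2
  have h4 := (Real.le_log_iff_exp_le hx).2 h1
  constructor <;> linarith

theorem sg_right {h x : ℝ} (h1 : 1 ≤ x) (h2 : x ≤ Real.exp h) :
    0 ≤ 1 * Real.log x ∧ 1 * Real.log x ≤ h := by
  have hx : 0 < x := zero_lt_one.trans_le h1
  have h3 : 0 ≤ Real.log x := Real.log_nonneg h1
  have h4 := (Real.log_le_iff_le_exp hx).2 h2
  constructor <;> linarith

/-- the trivial bound -/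
theorem J_a (m : ℕ) {h : ℝ} (hh : 0 < h) (h4 : h ≤ 1 / 4) (lam : ℝ) :
    |∫ x in (0:ℝ)..2, RR m h x * Real.cos (lam * x)| ≤ 3 * h * Real.exp (m * h) := by
  rw [J_split m hh h4 lam]
  have h5 := exp_h hh h4
  have h6 : Real.exp (-h) ≤ 1 := Real.exp_le_one_iff.2 (by linarith)
  have h7 : 1 ≤ Real.exp h := Real.one_le_exp hh.le
  have b1 : |∫ x in Real.exp (-h)..1, br m (-1) h x * Real.cos (lam * x)| ≤
      Real.exp (m * h) * (1 - Real.exp (-h)) := by
    have := intervalIntegral.norm_integral_le_of_norm_le_const (a := Real.exp (-h)) (b := 1)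
      (f := fun x => br m (-1) h x * Real.cos (lam * x)) (C := Real.exp (m * h)) (by
        intro x hx
        rw [Set.uIoc_of_le h6] at hx
        rw [Real.norm_eq_abs, abs_mul]
        obtain ⟨s1, s2⟩ := sg_left hx.1.le hx.2
        have h3 := (br_bd (m := m) (s := -1) hh (by simp) hx.1.le (hx.2.trans h7) s1 s2).1
        have h4 := Real.abs_cos_le_one (lam * x)
        calc |br m (-1) h x| * |Real.cos (lam * x)| ≤ |br m (-1) h x| * 1 := by gcongr
          _ ≤ _ := by linarith)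
    rwa [Real.norm_eq_abs, abs_of_nonneg (by linarith : (0:ℝ) ≤ 1 - Real.exp (-h))] at this
  have b2 : |∫ x in (1:ℝ)..Real.exp h, br m 1 h x * Real.cos (lam * x)| ≤
      Real.exp (m * h) * (Real.exp h - 1) := by
    have := intervalIntegral.norm_integral_le_of_norm_le_const (a := 1) (b := Real.exp h)
      (f := fun x => br m 1 h x * Real.cos (lam * x)) (C := Real.exp (m * h)) (by
        intro x hx
        rw [Set.uIoc_of_le h7] at hx
        rw [Real.norm_eq_abs, abs_mul]
        obtain ⟨s1, s2⟩ := sg_right hx.1.le hx.2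
        have h3 := (br_bd (m := m) (s := 1) hh (by simp) (h6.trans hx.1.le) hx.2 s1 s2).1
        have h4 := Real.abs_cos_le_one (lam * x)
        calc |br m 1 h x| * |Real.cos (lam * x)| ≤ |br m 1 h x| * 1 := by gcongr
          _ ≤ _ := by linarith)
    rwa [Real.norm_eq_abs, abs_of_nonneg (by linarith : (0:ℝ) ≤ Real.exp h - 1)] at this
  refine (abs_add_le _ _).trans ?_
  have h8 := Real.exp_pos (m * h)
  nlinarith [h5.2]

/-- the bound by two integrations by parts -/
theorem J_b (m : ℕ) {h : ℝ} (hh : 0 < h) (h4 : h ≤ 1 / 4) {lam : ℝ} (hl : 0 < lam) :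
    |∫ x in (0:ℝ)..2, RR m h x * Real.cos (lam * x)| ≤
      Real.exp (m * h) * (8 / h + 20 * m + 6 + 6 * h * m * (m + 1)) / lam ^ 2 := by
  rw [J_split m hh h4 lam]
  obtain ⟨h5, h5'⟩ := exp_h hh h4
  have h6 : Real.exp (-h) ≤ 1 := Real.exp_le_one_iff.2 (by linarith)
  have h7 : 1 ≤ Real.exp h := Real.one_le_exp hh.le
  have hpos : ∀ x, Real.exp (-h) ≤ x → x ≠ 0 := fun x hx => ((Real.exp_pos _).trans_le hx).ne'
  set M1 := Real.exp (m * h) * Real.exp h * (m + 1 / h) with hM1
  set M2 := Real.exp (m * h) * (Real.exp h * Real.exp h) * ((m + 1) * (m + 1 / h) + m / h) with hM2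
  have k1 := ibp2 (a := Real.exp (-h)) (b := 1) (M1 := M1) (M2 := M2) h6 hl
    (f := br m (-1) h) (f1 := br1 m (-1) h) (f2 := br2 m (-1) h)
    (fun x hx => hd_br m _ h (hpos x hx.1)) (fun x hx => hd_br1 m _ h (hpos x hx.1))
    (br2_cont m _ h (Real.exp_pos _))
    (fun x hx => by
      obtain ⟨s1, s2⟩ := sg_left hx.1 hx.2
      exact (br_bd (m := m) (s := -1) hh (by simp) hx.1 (hx.2.trans h7) s1 s2).2.1)
    (fun x hx => by
      obtain ⟨s1, s2⟩ := sg_left hx.1 hx.2
      exact (br_bd (m := m) (s := -1) hh (by simp) hx.1 (hx.2.trans h7) s1 s2).2.2)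
  have k2 := ibp2 (a := 1) (b := Real.exp h) (M1 := M1) (M2 := M2) h7 hl
    (f := br m 1 h) (f1 := br1 m 1 h) (f2 := br2 m 1 h)
    (fun x hx => hd_br m _ h (hpos x (h6.trans hx.1)))
    (fun x hx => hd_br1 m _ h (hpos x (h6.trans hx.1)))
    (br2_cont m _ h zero_lt_one)
    (fun x hx => by
      obtain ⟨s1, s2⟩ := sg_right hx.1 hx.2
      exact (br_bd (m := m) (s := 1) hh (by simp) (h6.trans hx.1) hx.2 s1 s2).2.1)
    (fun x hx => by
      obtain ⟨s1, s2⟩ := sg_right hx.1 hx.2
      exact (br_bd (m := m) (s := 1) hh (by simp) (h6.trans hx.1) hx.2 s1 s2).2.2)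
  have v1 : br m (-1) h 1 = 1 := by simp [br]
  have v2 : br m 1 h 1 = 1 := by simp [br]
  have v3 : br m (-1) h (Real.exp (-h)) = 0 := by
    unfold br
    rw [Real.log_exp]
    have : 1 - -1 * -h / h = 0 := by field_simp; ring
    rw [this, mul_zero]
  have v4 : br m 1 h (Real.exp h) = 0 := by
    unfold br
    rw [Real.log_exp]
    have : 1 - 1 * h / h = 0 := by field_simp; ring
    rw [this, mul_zero]
  rw [v1, v3] at k1
  rw [v2, v4] at k2
  simp only [zero_mul, sub_zero, zero_sub, one_mul] at k1 k2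
  have hE : 0 < Real.exp (m * h) := Real.exp_pos _
  have hm0 : (0 : ℝ) ≤ m := Nat.cast_nonneg m
  have hM1b : M1 ≤ Real.exp (m * h) * (4 / 3) * (m + 1 / h) := by
    rw [hM1]; gcongr
  have hM2b : M2 ≤ Real.exp (m * h) * ((4 / 3) * (4 / 3)) * ((m + 1) * (m + 1 / h) + m / h) := by
    rw [hM2]; gcongr
  have hM20 : 0 ≤ M2 := by rw [hM2]; positivity
  set A := ∫ x in Real.exp (-h)..1, br m (-1) h x * Real.cos (lam * x)
  set B := ∫ x in (1:ℝ)..Real.exp h, br m 1 h x * Real.cos (lam * x)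
  have htot : |A + B| ≤ (2 * M1 + M2 * (1 - Real.exp (-h))) / lam ^ 2 +
      (2 * M1 + M2 * (Real.exp h - 1)) / lam ^ 2 := by
    have e : A + B = (A - Real.sin (lam * 1) / lam) + (B - -Real.sin (lam * 1) / lam) := by ring
    rw [e]
    refine (abs_add_le _ _).trans ?_
    exact add_le_add k1 k2
  refine htot.trans ?_
  rw [← add_div]
  gcongr
  have e1 : 2 * M1 + M2 * (1 - Real.exp (-h)) + (2 * M1 + M2 * (Real.exp h - 1)) ≤
      4 * M1 + M2 * (3 * h) := by nlinarith
  have e2 : 4 * M1 + M2 * (3 * h) ≤ 4 * (Real.exp (m * h) * (4 / 3) * (m + 1 / h)) +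
      Real.exp (m * h) * ((4 / 3) * (4 / 3)) * ((m + 1) * (m + 1 / h) + m / h) * (3 * h) := by
    gcongr
  have e3 : 4 * (Real.exp (m * h) * (4 / 3) * (m + 1 / h)) +
      Real.exp (m * h) * ((4 / 3) * (4 / 3)) * ((m + 1) * (m + 1 / h) + m / h) * (3 * h) =
      Real.exp (m * h) * ((16 / 3) * m + (16 / 3) / h + (16 / 3) * h * m * (m + 1) +
        (16 / 3) * (2 * m + 1)) := by
    field_simp
    ring
  have e4 : (16 / 3 : ℝ) * m + (16 / 3) / h + (16 / 3) * h * m * (m + 1) + (16 / 3) * (2 * m + 1) ≤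
      8 / h + 20 * m + 6 + 6 * h * m * (m + 1) := by
    have a1 : (16 / 3 : ℝ) / h ≤ 8 / h := by gcongr; norm_num
    have a2 : (16 / 3 : ℝ) * h * m * (m + 1) ≤ 6 * h * m * (m + 1) := by gcongr; norm_num
    linarith
  calc _ ≤ _ := e1
    _ ≤ _ := e2
    _ = _ := e3
    _ ≤ _ := by gcongr

end Pool.Agent.Q175.NE
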