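import Mathlib
import Pool.Agent.Q175.NE.Src

/-! The cosine coefficients of the boundary source (project NE of helper286). -/

set_option autoImplicit false

open Finset MeasureTheory Filter Topology

namespace Pool.Agent.Q175.NE

open Pool.Agent.Q286.NE Pool.Agent.Q286.AP Pool.Agent.H469R10.HO

/-- the bound for one piece -/
theorem Jk (m k j : ℕ) :
    |∫ x in (0:ℝ)..2, RR m (1 / 2 ^ (k + 2)) x * Real.cos (xx j * x)| ≤
      80 * Real.exp m * (m + 1) ^ 2 / (1 + (j : ℝ)) ^ 2 +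
      240 * min (1 / 2 ^ (k + 2)) (2 ^ (k + 2) / (1 + (j : ℝ)) ^ 2) := by
  set h : ℝ := 1 / 2 ^ (k + 2) with hh
  have hp : (0 : ℝ) < 2 ^ (k + 2) := by positivity
  have h0 : 0 < h := by rw [hh]; positivity
  have h4 : h ≤ 1 / 4 := by
    rw [hh]
    apply one_div_le_one_div_of_le (by norm_num)
    rw [pow_add]
    have : (1 : ℝ) ≤ 2 ^ k := one_le_pow₀ (by norm_num)
    linarith
  have hinv : (2 : ℝ) ^ (k + 2) = 1 / h := by rw [hh, one_div_one_div]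
  rw [hinv]
  have hm0 : (0 : ℝ) ≤ m := Nat.cast_nonneg m
  have hj0 : (0 : ℝ) ≤ j := Nat.cast_nonneg j
  have ha := J_a m h0 h4 (xx j)
  have hmh : (m : ℝ) * h ≤ m := by nlinarith
  have hEm : Real.exp (m * h) ≤ Real.exp m := Real.exp_le_exp.2 hmh
  have hlam : 1 ≤ j → 0 < xx j ∧ 1 / xx j ^ 2 ≤ 2 / (1 + (j : ℝ)) ^ 2 := by
    intro hj
    have hj1 : (1 : ℝ) ≤ j := by exact_mod_cast hj
    have hpi := Real.pi_gt_three
    have hx : 3 / 2 * (j : ℝ) ≤ xx j := by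
      unfold xx
      nlinarith
    have hx0 : 0 < xx j := by linarith
    refine ⟨hx0, ?_⟩
    rw [div_le_div_iff₀ (by positivity) (by positivity)]
    nlinarith
  by_cases hc : h * ((m : ℝ) + 1) ^ 2 ≤ 1
  · have hmh1 : (m : ℝ) * h ≤ 1 := by nlinarith
    have hE3 : Real.exp (m * h) ≤ 3 := by
      have := Real.exp_one_lt_d9
      have h2 : Real.exp (m * h) ≤ Real.exp 1 := Real.exp_le_exp.2 hmh1
      linarith
    have hA : |∫ x in (0:ℝ)..2, RR m h x * Real.cos (xx j * x)| ≤ 240 * h := by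
      have : 3 * h * Real.exp (m * h) ≤ 3 * h * 3 := by gcongr
      linarith
    have hB : |∫ x in (0:ℝ)..2, RR m h x * Real.cos (xx j * x)| ≤
        240 * (1 / h / (1 + (j : ℝ)) ^ 2) := by
      rcases Nat.eq_zero_or_pos j with hj | hj
      · subst hj
        refine hA.trans ?_
        have : h ≤ 1 / h := by
          rw [le_div_iff₀ h0]; nlinarith
        simp only [Nat.cast_zero, add_zero, one_pow, div_one]
        linarith
      · obtain ⟨l1, l2⟩ := hlam hj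
        have hb := J_b m h0 h4 l1
        refine hb.trans ?_
        have n1 : (m : ℝ) ≤ 1 / h := by
          rw [le_div_iff₀ h0]; exact hmh1
        have n2 : (1 : ℝ) ≤ 1 / h := by
          rw [le_div_iff₀ h0]; linarith
        have n3 : 6 * h * m * ((m : ℝ) + 1) ≤ 6 := by nlinarith
        have n4 : 8 / h + 20 * (m : ℝ) + 6 + 6 * h * m * (m + 1) ≤ 40 * (1 / h) := by
          have : 8 / h = 8 * (1 / h) := by ring
          rw [this]
          linarith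
        calc Real.exp (m * h) * (8 / h + 20 * m + 6 + 6 * h * m * (m + 1)) / xx j ^ 2
            ≤ 3 * (40 * (1 / h)) / xx j ^ 2 := by gcongr
          _ = 120 * (1 / h) * (1 / xx j ^ 2) := by ring
          _ ≤ 120 * (1 / h) * (2 / (1 + (j : ℝ)) ^ 2) := by gcongr
          _ = 240 * (1 / h / (1 + (j : ℝ)) ^ 2) := by ring
    have hmin : |∫ x in (0:ℝ)..2, RR m h x * Real.cos (xx j * x)| ≤
        240 * min h (1 / h / (1 + (j : ℝ)) ^ 2) := by
      rcases min_cases h (1 / h / (1 + (j : ℝ)) ^ 2) with ⟨e, _⟩ | ⟨e, _⟩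
      · rw [e]; exact hA
      · rw [e]; exact hB
    have : 0 ≤ 80 * Real.exp m * ((m : ℝ) + 1) ^ 2 / (1 + (j : ℝ)) ^ 2 := by positivity
    linarith
  · push Not at hc
    have hinv' : 1 / h ≤ ((m : ℝ) + 1) ^ 2 := by
      rw [div_le_iff₀ h0]; linarith
    have hmn : 0 ≤ 240 * min h (1 / h / (1 + (j : ℝ)) ^ 2) := by
      have : 0 ≤ min h (1 / h / (1 + (j : ℝ)) ^ 2) := le_min h0.le (by positivity)
      linarith
    have hmain : |∫ x in (0:ℝ)..2, RR m h x * Real.cos (xx j * x)| ≤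
        80 * Real.exp m * ((m : ℝ) + 1) ^ 2 / (1 + (j : ℝ)) ^ 2 := by
      rcases Nat.eq_zero_or_pos j with hj | hj
      · subst hj
        refine ha.trans ?_
        simp only [Nat.cast_zero, add_zero, one_pow, div_one]
        have e1 : 3 * h * Real.exp (m * h) ≤ 1 * Real.exp m := by
          gcongr
          linarith
        have e2 : (1 : ℝ) ≤ ((m : ℝ) + 1) ^ 2 := by nlinarith
        have e3 := Real.exp_pos (m : ℝ)
        nlinarith
      · obtain ⟨l1, l2⟩ := hlam hj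
        have hb := J_b m h0 h4 l1
        refine hb.trans ?_
        have n3 : 6 * h * m * ((m : ℝ) + 1) ≤ 2 * ((m : ℝ) + 1) ^ 2 := by nlinarith
        have n4 : 8 / h + 20 * (m : ℝ) + 6 + 6 * h * m * (m + 1) ≤ 40 * ((m : ℝ) + 1) ^ 2 := by
          have : 8 / h = 8 * (1 / h) := by ring
          rw [this]
          nlinarith
        calc Real.exp (m * h) * (8 / h + 20 * m + 6 + 6 * h * m * (m + 1)) / xx j ^ 2
            ≤ Real.exp m * (40 * ((m : ℝ) + 1) ^ 2) / xx j ^ 2 := by gcongr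
          _ = Real.exp m * (40 * ((m : ℝ) + 1) ^ 2) * (1 / xx j ^ 2) := by ring
          _ ≤ Real.exp m * (40 * ((m : ℝ) + 1) ^ 2) * (2 / (1 + (j : ℝ)) ^ 2) := by gcongr
          _ = 80 * Real.exp m * ((m : ℝ) + 1) ^ 2 / (1 + (j : ℝ)) ^ 2 := by ring
    linarith

/-- the distance of `k + 2` to the binary order of `1 + j` -/
def dd (j k : ℕ) : ℤ := (k : ℤ) + 2 - (Nat.log 2 (1 + j) : ℕ)

theorem min_bd (j k : ℕ) :
    min (1 / (2 : ℝ) ^ (k + 2)) (2 ^ (k + 2) / (1 + (j : ℝ)) ^ 2) ≤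
      2 * (1 / 2) ^ (dd j k).natAbs / (1 + (j : ℝ)) := by
  set N := Nat.log 2 (1 + j) with hN
  have h1 : 2 ^ N ≤ 1 + j := Nat.pow_log_le_self 2 (by omega)
  have h2 : 1 + j < 2 ^ (N + 1) := Nat.lt_pow_succ_log_self (by norm_num) _
  have h1' : (2 : ℝ) ^ N ≤ 1 + j := by exact_mod_cast h1
  have h2' : (1 : ℝ) + j ≤ 2 ^ (N + 1) := by exact_mod_cast h2.le
  have hX : (0 : ℝ) < 1 + j := by positivity
  rcases le_total N (k + 2) with h | h
  · refine (min_le_left _ _).trans ?_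
    have hd : (dd j k).natAbs = k + 2 - N := by unfold dd; rw [← hN]; omega
    rw [hd, div_le_div_iff₀ (by positivity) hX, one_mul]
    have e : (2 : ℝ) ^ (k + 2) = 2 ^ (k + 2 - N) * 2 ^ N := by
      rw [← pow_add]; congr 1; omega
    rw [e]
    have e2 : (1 / 2 : ℝ) ^ (k + 2 - N) * 2 ^ (k + 2 - N) = 1 := by
      rw [← mul_pow]; norm_num
    calc (1 : ℝ) + j ≤ 2 ^ (N + 1) := h2'
      _ = 2 * ((1 / 2 : ℝ) ^ (k + 2 - N) * 2 ^ (k + 2 - N)) * 2 ^ N := by rw [e2]; ring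
      _ = _ := by ring
  · refine (min_le_right _ _).trans ?_
    have hd : (dd j k).natAbs = N - (k + 2) := by unfold dd; rw [← hN]; omega
    rw [hd, div_le_div_iff₀ (by positivity) hX]
    have e : (2 : ℝ) ^ N = 2 ^ (N - (k + 2)) * 2 ^ (k + 2) := by
      rw [← pow_add]; congr 1; omega
    have e2 : (1 / 2 : ℝ) ^ (N - (k + 2)) * 2 ^ (N - (k + 2)) = 1 := by
      rw [← mul_pow]; norm_num
    have e3 : (2 : ℝ) ^ (k + 2) = (1 / 2 : ℝ) ^ (N - (k + 2)) * 2 ^ N := by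
      rw [e, ← mul_assoc, e2, one_mul]
    rw [e3]
    have hpos : (0 : ℝ) < (1 / 2 : ℝ) ^ (N - (k + 2)) := by positivity
    calc (1 / 2 : ℝ) ^ (N - (k + 2)) * 2 ^ N * (1 + j)
        ≤ (1 / 2 : ℝ) ^ (N - (k + 2)) * (1 + j) * (1 + j) := by gcongr
      _ ≤ 2 * (1 / 2) ^ (N - (k + 2)) * (1 + (j : ℝ)) ^ 2 := by nlinarith

/-- the weight function on the integers -/
noncomputable def GG (z : ℤ) : ℝ := ((z.natAbs : ℝ) + 2) ^ 5 * (1 / 2) ^ z.natAbs

theorem GG_nonneg (z : ℤ) : 0 ≤ GG z := by unfold GG; positivity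

theorem GG_sum : Summable GG := by
  have h0 : Summable (fun n : ℕ => ((n : ℝ) + 2) ^ 5 * (1 / 2) ^ n) := by
    have h1 := summable_pow_mul_geometric_of_norm_lt_one (R := ℝ) 5 (r := 1 / 2) (by norm_num)
    have h2 := ((summable_nat_add_iff 2).2 h1).mul_left 4
    refine h2.congr fun n => ?_
    push_cast
    rw [pow_add]
    ring
  refine Summable.of_nat_of_neg ?_ ?_
  · refine h0.congr fun n => ?_
    simp [GG]
  · refine h0.congr fun n => ?_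
    simp [GG]

theorem term_bd (j k : ℕ) : 1 / ((k : ℝ) + 2) ^ 5 * (1 / 2) ^ (dd j k).natAbs ≤
    GG (dd j k) / ((Nat.log 2 (1 + j) : ℕ) + 1 : ℝ) ^ 5 := by
  set N := Nat.log 2 (1 + j) with hN
  set d := (dd j k).natAbs with hd
  have h1 : N + 1 ≤ (k + 2) * (d + 2) := by
    have h2 : N ≤ k + 2 + d := by
      rw [hd]; unfold dd; rw [← hN]; omega
    nlinarith
  have h1' : (N : ℝ) + 1 ≤ ((k : ℝ) + 2) * (d + 2) := by exact_mod_cast h1
  unfold GG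
  rw [← hd, div_mul_eq_mul_div, one_mul, div_le_div_iff₀ (by positivity) (by positivity)]
  have h3 : ((N : ℝ) + 1) ^ 5 ≤ (((k : ℝ) + 2) * (d + 2)) ^ 5 := by gcongr
  rw [mul_pow] at h3
  have h4 : (0 : ℝ) < (1 / 2) ^ d := by positivity
  calc (1 / 2 : ℝ) ^ d * ((N : ℝ) + 1) ^ 5 ≤ (1 / 2 : ℝ) ^ d * (((k : ℝ) + 2) ^ 5 * (d + 2) ^ 5) := by
        gcongr
    _ = _ := by ring

theorem dd_inj (j : ℕ) : Function.Injective (dd j) := by
  intro a b h
  unfold dd at h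
  omega

theorem sumd (j : ℕ) : Summable (fun k : ℕ => 1 / ((k : ℝ) + 2) ^ 5 * (1 / 2) ^ (dd j k).natAbs) ∧
    ∑' k : ℕ, 1 / ((k : ℝ) + 2) ^ 5 * (1 / 2) ^ (dd j k).natAbs ≤
      (∑' z, GG z) / ((Nat.log 2 (1 + j) : ℕ) + 1 : ℝ) ^ 5 := by
  have h1 : Summable (fun k => GG (dd j k)) := GG_sum.comp_injective (dd_inj j)
  have h2 := h1.div_const (((Nat.log 2 (1 + j) : ℕ) + 1 : ℝ) ^ 5)
  have h3 : Summable (fun k : ℕ => 1 / ((k : ℝ) + 2) ^ 5 * (1 / 2) ^ (dd j k).natAbs) :=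
    Summable.of_nonneg_of_le (fun k => by positivity) (term_bd j) h2
  refine ⟨h3, ?_⟩
  calc ∑' k : ℕ, 1 / ((k : ℝ) + 2) ^ 5 * (1 / 2) ^ (dd j k).natAbs
      ≤ ∑' k, GG (dd j k) / ((Nat.log 2 (1 + j) : ℕ) + 1 : ℝ) ^ 5 :=
        h3.tsum_le_tsum (term_bd j) h2
    _ = (∑' k, GG (dd j k)) / ((Nat.log 2 (1 + j) : ℕ) + 1 : ℝ) ^ 5 := tsum_div_const
    _ ≤ _ := by
      gcongr
      exact tsum_comp_le_tsum_of_inj GG_sum GG_nonneg (dd_inj j)

theorem log_bd (j : ℕ) : 0 < Real.log (2 + j) ∧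
    1 / ((Nat.log 2 (1 + j) : ℕ) + 1 : ℝ) ^ 5 ≤ 1 / Real.log (2 + j) ^ 5 := by
  have h0 : 0 < Real.log (2 + j) := Real.log_pos (by
    have : (0 : ℝ) ≤ j := Nat.cast_nonneg j
    linarith)
  refine ⟨h0, ?_⟩
  set N := Nat.log 2 (1 + j) with hN
  have h2 : 1 + j < 2 ^ (N + 1) := Nat.lt_pow_succ_log_self (by norm_num) _
  have h3 : 2 + j ≤ 2 ^ (N + 1) := by omega
  have h3' : (2 : ℝ) + j ≤ 2 ^ (N + 1) := by exact_mod_cast h3
  have h4 : Real.log (2 + j) ≤ N + 1 := by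
    calc Real.log (2 + j) ≤ Real.log (2 ^ (N + 1)) := Real.log_le_log (by positivity) h3'
      _ = ((N + 1 : ℕ) : ℝ) * Real.log 2 := by rw [Real.log_pow]
      _ ≤ ((N + 1 : ℕ) : ℝ) * 1 := by
        gcongr
        have := Real.log_two_lt_d9
        linarith
      _ = N + 1 := by push_cast; ring
  gcongr

/-- interchange of sum and integral -/
theorem PP_sum (c : ℝ) (m j : ℕ) :
    HasSum (fun k : ℕ => c * (1 / ((k : ℝ) + 2) ^ 5) *
      ∫ x in (0:ℝ)..2, RR m (1 / 2 ^ (k + 2)) x * Real.cos (xx j * x))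
      (∫ x in (0:ℝ)..2, rr c m x * Real.cos (xx j * x)) := by
  have hh : ∀ k : ℕ, (0 : ℝ) < 1 / 2 ^ (k + 2) ∧ (1 : ℝ) / 2 ^ (k + 2) ≤ 1 / 4 := by
    intro k
    refine ⟨by positivity, ?_⟩
    apply one_div_le_one_div_of_le (by norm_num)
    rw [pow_add]
    have : (1 : ℝ) ≤ 2 ^ k := one_le_pow₀ (by norm_num)
    linarith
  have hcont : ∀ k : ℕ, Continuous (fun x : ℝ => c * (1 / ((k : ℝ) + 2) ^ 5) *
      (RR m (1 / 2 ^ (k + 2)) x * Real.cos (xx j * x))) := by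
    intro k
    have := RR_cont m (hh k).1 (hh k).2
    fun_prop
  have hbd : ∀ (k : ℕ) (x : ℝ), x ∈ Set.Ioc (0:ℝ) 2 → ‖c * (1 / ((k : ℝ) + 2) ^ 5) *
      (RR m (1 / 2 ^ (k + 2)) x * Real.cos (xx j * x))‖ ≤ |c| * 2 ^ m * (1 / ((k : ℝ) + 2) ^ 5) := by
    intro k x hx
    have h1 : |RR m (1 / 2 ^ (k + 2)) x| ≤ 2 ^ m := by
      unfold RR
      rw [if_pos hx.1, one_mul, abs_mul, abs_of_pos (pow_pos hx.1 m), abs_of_nonneg (tri_nonneg _)]
      have hx0 : 0 ≤ x := hx.1.le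
      have hx2 : x ≤ 2 := hx.2
      calc x ^ m * tri (Real.log x / (1 / 2 ^ (k + 2))) ≤ x ^ m * 1 :=
            mul_le_mul_of_nonneg_left (tri_le _) (pow_nonneg hx0 m)
        _ = x ^ m := mul_one _
        _ ≤ 2 ^ m := by gcongr
    have h2 := Real.abs_cos_le_one (xx j * x)
    rw [Real.norm_eq_abs, abs_mul, abs_mul, abs_mul, abs_of_pos (by positivity : (0:ℝ) < 1 / ((k : ℝ) + 2) ^ 5)]
    calc |c| * (1 / ((k : ℝ) + 2) ^ 5) * (|RR m (1 / 2 ^ (k + 2)) x| * |Real.cos (xx j * x)|)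
        ≤ |c| * (1 / ((k : ℝ) + 2) ^ 5) * (2 ^ m * 1) := by gcongr
      _ = _ := by ring
  have hint : ∀ k : ℕ, Integrable (fun x : ℝ => c * (1 / ((k : ℝ) + 2) ^ 5) *
      (RR m (1 / 2 ^ (k + 2)) x * Real.cos (xx j * x))) (volume.restrict (Set.Ioc 0 2)) := by
    intro k
    exact ((hcont k).intervalIntegrable 0 2).1
  have hsum : Summable (fun k : ℕ => ∫ x in Set.Ioc (0:ℝ) 2, ‖c * (1 / ((k : ℝ) + 2) ^ 5) *
      (RR m (1 / 2 ^ (k + 2)) x * Real.cos (xx j * x))‖) := by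
    have h1 := sum5.mul_left (|c| * 2 ^ m * 2)
    refine Summable.of_nonneg_of_le (fun k => integral_nonneg fun x => norm_nonneg _) (fun k => ?_) h1
    have h2 : ∫ x in Set.Ioc (0:ℝ) 2, ‖c * (1 / ((k : ℝ) + 2) ^ 5) *
      (RR m (1 / 2 ^ (k + 2)) x * Real.cos (xx j * x))‖ ≤
      ∫ x in Set.Ioc (0:ℝ) 2, |c| * 2 ^ m * (1 / ((k : ℝ) + 2) ^ 5) := by
      apply setIntegral_mono_on (hint k).norm (integrable_const _) measurableSet_Ioc
      exact hbd k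
    refine h2.trans (le_of_eq ?_)
    rw [setIntegral_const]
    simp only [Real.volume_real_Ioc_of_le (by norm_num : (0:ℝ) ≤ 2), sub_zero, smul_eq_mul]
    ring
  have key := hasSum_integral_of_summable_integral_norm hint hsum
  rw [intervalIntegral.integral_of_le (by norm_num : (0:ℝ) ≤ 2)]
  have e1 : ∫ x in Set.Ioc (0:ℝ) 2, rr c m x * Real.cos (xx j * x) =
      ∫ x in Set.Ioc (0:ℝ) 2, ∑' k : ℕ, c * (1 / ((k : ℝ) + 2) ^ 5) *
      (RR m (1 / 2 ^ (k + 2)) x * Real.cos (xx j * x)) := by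
    apply setIntegral_congr_fun measurableSet_Ioc
    intro x hx
    simp only
    unfold rr om RR
    rw [if_pos hx.1, ← tsum_mul_left, ← tsum_mul_right]
    congr 1
    funext k
    rw [if_pos hx.1]
    have : Real.log x / (1 / 2 ^ (k + 2)) = 2 ^ (k + 2) * Real.log x := by
      field_simp
    rw [this]
    ring
  rw [e1]
  have e2 : (fun k : ℕ => c * (1 / ((k : ℝ) + 2) ^ 5) *
      ∫ x in (0:ℝ)..2, RR m (1 / 2 ^ (k + 2)) x * Real.cos (xx j * x)) =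
      fun k : ℕ => ∫ x in Set.Ioc (0:ℝ) 2, c * (1 / ((k : ℝ) + 2) ^ 5) *
      (RR m (1 / 2 ^ (k + 2)) x * Real.cos (xx j * x)) := by
    funext k
    rw [intervalIntegral.integral_of_le (by norm_num : (0:ℝ) ≤ 2), integral_const_mul]
  rw [e2]
  exact key

theorem pp : S_PP := by
  have hG0 : 0 ≤ ∑' z, GG z := tsum_nonneg GG_nonneg
  have hS0 : 0 ≤ ∑' k : ℕ, 1 / ((k : ℝ) + 2) ^ 5 := tsum_nonneg fun k => by positivity
  refine ⟨480 * (∑' z, GG z) + 1, by linarith, fun m => ?_⟩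
  refine ⟨80 * Real.exp m * (m + 1) ^ 2 * (∑' k : ℕ, 1 / ((k : ℝ) + 2) ^ 5) + 1, by positivity,
    fun c hc j => ?_⟩
  set X : ℝ := 1 + (j : ℝ) with hX
  have hX0 : 0 < X := by rw [hX]; positivity
  obtain ⟨hl0, hl1⟩ := log_bd j
  obtain ⟨hs1, hs2⟩ := sumd j
  have hsum := PP_sum c m j
  -- termwise bound
  have hterm : ∀ k : ℕ, ‖c * (1 / ((k : ℝ) + 2) ^ 5) *
      ∫ x in (0:ℝ)..2, RR m (1 / 2 ^ (k + 2)) x * Real.cos (xx j * x)‖ ≤
      c * (80 * Real.exp m * (m + 1) ^ 2 / X ^ 2) * (1 / ((k : ℝ) + 2) ^ 5) +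
      c * (480 / X) * (1 / ((k : ℝ) + 2) ^ 5 * (1 / 2) ^ (dd j k).natAbs) := by
    intro k
    have h1 := Jk m k j
    have h2 := min_bd j k
    rw [Real.norm_eq_abs, abs_mul, abs_of_nonneg (by positivity : 0 ≤ c * (1 / ((k : ℝ) + 2) ^ 5))]
    have h3 : |∫ x in (0:ℝ)..2, RR m (1 / 2 ^ (k + 2)) x * Real.cos (xx j * x)| ≤
        80 * Real.exp m * (m + 1) ^ 2 / X ^ 2 + 480 / X * (1 / 2) ^ (dd j k).natAbs := by
      have h4 : 240 * (2 * (1 / 2) ^ (dd j k).natAbs / (1 + (j : ℝ))) =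
          480 / X * (1 / 2) ^ (dd j k).natAbs := by rw [hX]; ring
      linarith
    calc c * (1 / ((k : ℝ) + 2) ^ 5) *
        |∫ x in (0:ℝ)..2, RR m (1 / 2 ^ (k + 2)) x * Real.cos (xx j * x)|
        ≤ c * (1 / ((k : ℝ) + 2) ^ 5) *
          (80 * Real.exp m * (m + 1) ^ 2 / X ^ 2 + 480 / X * (1 / 2) ^ (dd j k).natAbs) := by gcongr
      _ = _ := by ring
  have hS : Summable (fun k : ℕ => c * (80 * Real.exp m * (m + 1) ^ 2 / X ^ 2) * (1 / ((k : ℝ) + 2) ^ 5) +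
      c * (480 / X) * (1 / ((k : ℝ) + 2) ^ 5 * (1 / 2) ^ (dd j k).natAbs)) :=
    (sum5.mul_left _).add (hs1.mul_left _)
  have hI : |∫ x in (0:ℝ)..2, rr c m x * Real.cos (xx j * x)| ≤
      c * (80 * Real.exp m * (m + 1) ^ 2 / X ^ 2) * (∑' k : ℕ, 1 / ((k : ℝ) + 2) ^ 5) +
      c * (480 / X) * ((∑' z, GG z) / ((Nat.log 2 (1 + j) : ℕ) + 1 : ℝ) ^ 5) := by
    rw [← hsum.tsum_eq, ← Real.norm_eq_abs]
    refine (tsum_of_norm_bounded hS.hasSum hterm).trans ?_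
    rw [(sum5.mul_left _).tsum_add (hs1.mul_left _), tsum_mul_left, tsum_mul_left]
    gcongr
  have hww := ww_ge j
  unfold PP
  rw [abs_div, abs_of_pos (by linarith : 0 < ww j)]
  have hdiv : |∫ x in (0:ℝ)..2, rr c m x * Real.cos (xx j * x)| / ww j ≤
      |∫ x in (0:ℝ)..2, rr c m x * Real.cos (xx j * x)| := div_le_self (abs_nonneg _) hww
  refine hdiv.trans (hI.trans ?_)
  have h5 : (∑' z, GG z) / ((Nat.log 2 (1 + j) : ℕ) + 1 : ℝ) ^ 5 ≤
      (∑' z, GG z) * (1 / Real.log (2 + j) ^ 5) := by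
    calc (∑' z, GG z) / ((Nat.log 2 (1 + j) : ℕ) + 1 : ℝ) ^ 5 =
        (∑' z, GG z) * (1 / ((Nat.log 2 (1 + j) : ℕ) + 1 : ℝ) ^ 5) := by ring
      _ ≤ _ := by gcongr
  calc c * (80 * Real.exp m * (m + 1) ^ 2 / X ^ 2) * (∑' k : ℕ, 1 / ((k : ℝ) + 2) ^ 5) +
      c * (480 / X) * ((∑' z, GG z) / ((Nat.log 2 (1 + j) : ℕ) + 1 : ℝ) ^ 5)
      ≤ c * (80 * Real.exp m * (m + 1) ^ 2 / X ^ 2) * (∑' k : ℕ, 1 / ((k : ℝ) + 2) ^ 5) +
      c * (480 / X) * ((∑' z, GG z) * (1 / Real.log (2 + j) ^ 5)) := by gcongr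
    _ = c * (480 * (∑' z, GG z) / (X * Real.log (2 + j) ^ 5) +
        80 * Real.exp m * (m + 1) ^ 2 * (∑' k : ℕ, 1 / ((k : ℝ) + 2) ^ 5) / X ^ 2) := by
      field_simp
      ring
    _ ≤ c * ((480 * (∑' z, GG z) + 1) / (X * Real.log (2 + j) ^ 5) +
        (80 * Real.exp m * (m + 1) ^ 2 * (∑' k : ℕ, 1 / ((k : ℝ) + 2) ^ 5) + 1) / X ^ 2) := by
      gcongr <;> linarith

end Pool.Agent.Q175.NE
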